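import Pool.Agent.Y135.SS.Col

/-!
# Infinite `(t+1)`-transitive groups: all Steiner types of blocks on `t`-sets occur

Let `G` be a `(t+1)`-transitive permutation group on an infinite set which is not primitive on the
`t`-sets.  It is known that every block of imprimitivity of `G` on the `t`-sets is the block set of
a basis-transitive Steiner system `S(s, t, ·)` with `s < t`.  We show that every pair `1 ≤ s < t`
occurs (and no other), on a countable set.  The case `s = 1` are the parallelisms; every pair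
`2 ≤ s < t` gives a negative answer to Q1.

The proof is a construction with the predimension
`(points) + (t - s) (colours) - (t - s) (edges)`, where an edge is a `t`-set with its colour.
-/

open Finset
open scoped Pointwise

namespace Pool.Agent.Results.MP_c0ccbe_al.AllSteinerTypes

open Pool.Agent.Y135.SS

/-- `S` is a block of imprimitivity of `G` on the `t`-subsets of `ℕ` -/
def IsImprimitivityBlock {t : ℕ} (G : Subgroup (Equiv.Perm ℕ))
    (S : Set (Set.powersetCard ℕ t)) : Prop :=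
  S.Nontrivial ∧ S ≠ Set.univ ∧ ∀ g : G, g • S = S ∨ Disjoint (g • S) S

/-- `S` is the block set of a Steiner system `S(s, t, ·)` on `ℕ`: every `s`-subset of `ℕ` lies in
exactly one member of `S` -/
def IsSteiner {t : ℕ} (s : ℕ) (S : Set (Set.powersetCard ℕ t)) : Prop :=
  ∀ W : Finset ℕ, W.card = s → ∃! A : Set.powersetCard ℕ t, A ∈ S ∧ W ⊆ (A : Finset ℕ)

/-- an ordered basis: `s + 1` distinct points in no common block -/
def IsBasis {t : ℕ} (s : ℕ) (S : Set (Set.powersetCard ℕ t)) (b : Fin (s + 1) ↪ ℕ) : Prop :=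
  ∀ A ∈ S, ∃ i, b i ∉ (A : Finset ℕ)

/-- the elements of `G` which map `S` to itself act transitively on the ordered bases -/
def IsBasisTransitive {t : ℕ} (s : ℕ) (G : Subgroup (Equiv.Perm ℕ))
    (S : Set (Set.powersetCard ℕ t)) : Prop :=
  ∀ b b' : Fin (s + 1) ↪ ℕ, IsBasis s S b → IsBasis s S b' →
    ∃ g : G, g • S = S ∧ ∀ i, (g : Equiv.Perm ℕ) (b i) = b' i

theorem exists_superset (n : ℕ) (Y : Finset ℕ) (hY : Y.card ≤ n) :
    ∃ W : Finset ℕ, Y ⊆ W ∧ W.card = n := by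
  have h2 : n ≤ (Y ∪ range n).card := by
    have := card_le_card (subset_union_right (s₁ := Y) (s₂ := range n))
    rw [card_range] at this
    exact this
  obtain ⟨W, hW1, hW2, hW3⟩ :=
    exists_subsuperset_card_eq (subset_union_left (s₁ := Y) (s₂ := range n)) hY h2
  exact ⟨W, hW1, hW3⟩

theorem smul_eq {t : ℕ} {c : Set.powersetCard ℕ t → ℕ} (g : autG c) {A : Set.powersetCard ℕ t}
    (h3 : c A = 0) (h2 : c (g • A) = 0) :
    g • {A : Set.powersetCard ℕ t | c A = 0} = {A | c A = 0} := by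
  have hg := g.2
  ext C
  have hC : g • (g⁻¹ • C) = C := smul_inv_smul g C
  rw [← hC, Set.smul_mem_smul_set_iff]
  have h1 := hg (g⁻¹ • C) A
  constructor
  · intro h4
    have h5 : c (g⁻¹ • C) = 0 := h4
    show c (g • (g⁻¹ • C)) = 0
    rw [← h2]
    exact h1.2 (by rw [h5, h3])
  · intro h4
    have h5 : c (g • (g⁻¹ • C)) = 0 := h4
    show c (g⁻¹ • C) = 0
    rw [← h3]
    apply h1.1
    exact h5.trans h2.symm

theorem enum {s t : ℕ} {A : Finset ℕ} (hA : A.card = t) (b : Fin (s + 1) ↪ ℕ)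
    (hb : ∀ i : Fin s, b i.castSucc ∈ A) :
    ∃ (f : Fin t ≃ A) (j : Fin s ↪ Fin t), ∀ i, (f (j i) : ℕ) = b i.castSucc := by
  let f : Fin t ≃ A := (Finset.equivFinOfCardEq hA).symm
  refine ⟨f, ⟨fun i => f.symm ⟨b i.castSucc, hb i⟩, ?_⟩, ?_⟩
  · intro i k hik
    have h1 := f.symm.injective hik
    have h2 : b i.castSucc = b k.castSucc := congrArg Subtype.val h1
    exact Fin.castSucc_injective s (b.injective h2)
  · intro i
    show ((f (f.symm ⟨b i.castSucc, hb i⟩)) : ℕ) = _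
    rw [f.apply_symm_apply]

/-- the enumeration of `A` followed by a point outside `A` -/
theorem exists_snoc {t : ℕ} {A : Finset ℕ} (f : Fin t ≃ A) {x : ℕ} (hx : x ∉ A) :
    ∃ a : Fin (t + 1) ↪ ℕ, (∀ k : Fin t, a k.castSucc = (f k : ℕ)) ∧ a (Fin.last t) = x := by
  refine ⟨⟨Fin.snoc (α := fun _ => ℕ) (fun k => (f k : ℕ)) x, ?_⟩, ?_, ?_⟩
  · intro i k
    refine Fin.lastCases ?_ (fun i => ?_) i
    · refine Fin.lastCases ?_ (fun k => ?_) k
      · intro _; rfl
      · intro h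
        rw [Fin.snoc_last, Fin.snoc_castSucc] at h
        exact absurd (h ▸ (f k).2) hx
    · refine Fin.lastCases ?_ (fun k => ?_) k
      · intro h
        rw [Fin.snoc_last, Fin.snoc_castSucc] at h
        exact absurd (h ▸ (f i).2) hx
      · intro h
        rw [Fin.snoc_castSucc, Fin.snoc_castSucc] at h
        rw [f.injective (Subtype.ext h)]
  · intro k
    show Fin.snoc (α := fun _ => ℕ) (fun k => (f k : ℕ)) x k.castSucc = _
    rw [Fin.snoc_castSucc]
  · show Fin.snoc (α := fun _ => ℕ) (fun k => (f k : ℕ)) x (Fin.last t) = _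
    rw [Fin.snoc_last]

theorem steiner_last {s t : ℕ} {S : Set (Set.powersetCard ℕ t)} (hS : IsSteiner s S)
    {b : Fin (s + 1) ↪ ℕ} (hb : IsBasis s S b) :
    ∃ A ∈ S, (∀ i : Fin s, b i.castSucc ∈ (A : Finset ℕ)) ∧ b (Fin.last s) ∉ (A : Finset ℕ) := by
  obtain ⟨A, ⟨h1, h2⟩, _⟩ := hS ((univ : Finset (Fin s)).map
    (Fin.castSuccEmb.trans b)) (by rw [card_map, card_univ, Fintype.card_fin])
  have h3 : ∀ i : Fin s, b i.castSucc ∈ (A : Finset ℕ) := by
    intro i
    apply h2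
    rw [mem_map]
    exact ⟨i, mem_univ _, rfl⟩
  refine ⟨A, h1, h3, ?_⟩
  intro h4
  obtain ⟨i, hi⟩ := hb A h1
  apply hi
  refine Fin.lastCases h4 (fun i => h3 i) i

theorem basis_transitive {s t : ℕ} {c : Set.powersetCard ℕ t → ℕ}
    (hS : IsSteiner s {A : Set.powersetCard ℕ t | c A = 0})
    (hc2 : ∀ a b : Fin (t + 1) ↪ ℕ, ∃ σ : Equiv.Perm ℕ,
      (∀ A B : Set.powersetCard ℕ t, c (σ • A) = c (σ • B) ↔ c A = c B) ∧ ∀ i, σ (a i) = b i) :
    IsBasisTransitive s (autG c) {A : Set.powersetCard ℕ t | c A = 0} := by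
  intro b b' hb hb'
  obtain ⟨A, hA, hA1, hA2⟩ := steiner_last hS hb
  obtain ⟨A', hA', hA1', hA2'⟩ := steiner_last hS hb'
  obtain ⟨f, j, hfj⟩ := enum (A := (A : Finset ℕ)) A.2 b hA1
  obtain ⟨f', j', hfj'⟩ := enum (A := (A' : Finset ℕ)) A'.2 b' hA1'
  obtain ⟨ρ, hρ⟩ : ∃ ρ : Equiv.Perm (Fin t), ∀ i, ρ (j i) = j' i := by
    have h4 := Equiv.Perm.isMultiplyPretransitive (Fin t) s
    obtain ⟨σ, hσ⟩ := h4.exists_smul_eq j j'
    exact ⟨σ, fun i => DFunLike.congr_fun hσ i⟩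
  obtain ⟨a, ha1, ha2⟩ := exists_snoc f hA2
  obtain ⟨a', ha1', ha2'⟩ := exists_snoc (ρ.trans f') hA2'
  obtain ⟨σ, hσ1, hσ2⟩ := hc2 a a'
  have hσf : ∀ k : Fin t, σ (f k : ℕ) = (f' (ρ k) : ℕ) := by
    intro k
    rw [← ha1, hσ2, ha1']
    rfl
  have hσA : σ • A = A' := by
    apply Subtype.ext
    have h1 : ((σ • A : Set.powersetCard ℕ t) : Finset ℕ) = σ • (A : Finset ℕ) :=
      Set.powersetCard.coe_smul
    rw [h1]
    apply eq_of_subset_of_card_le
    · intro x hx
      obtain ⟨y, rfl⟩ := σ.surjective x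
      have hy : y ∈ (A : Finset ℕ) := (smul_mem_smul_finset_iff (b := y) σ).1 hx
      have h2 : y = (f (f.symm ⟨y, hy⟩) : ℕ) := by rw [f.apply_symm_apply]
      rw [h2, hσf]
      exact (f' _).2
    · rw [card_smul_finset]
      have h3 : (A : Finset ℕ).card = t := A.2
      have h4 : (A' : Finset ℕ).card = t := A'.2
      omega
  refine ⟨⟨σ, hσ1⟩, ?_, ?_⟩
  · apply smul_eq (c := c) ⟨σ, hσ1⟩ hA
    have h1 : (⟨σ, hσ1⟩ : autG c) • A = σ • A := rfl
    rw [h1, hσA]
    exact hA'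
  · intro i
    show σ (b i) = b' i
    refine Fin.lastCases ?_ (fun i => ?_) i
    · rw [← ha2, hσ2, ha2']
    · rw [← hfj, hσf, hρ, hfj']

/-- the construction -/
theorem exists_group {s t : ℕ} (hs : 1 ≤ s) (hst : s < t) :
    ∃ (G : Subgroup (Equiv.Perm ℕ)) (S : Set (Set.powersetCard ℕ t)),
      MulAction.IsMultiplyPretransitive G ℕ (t + 1) ∧
      ¬ MulAction.IsPreprimitive G (Set.powersetCard ℕ t) ∧
      IsImprimitivityBlock G S ∧ IsSteiner s S ∧ IsBasisTransitive s G S := by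
  obtain ⟨c, hc1, hc2⟩ := exists_colouring s (t - s) t (by omega) (by omega)
  let S : Set (Set.powersetCard ℕ t) := {A | c A = 0}
  have hSt : IsSteiner s S := fun W hW => hc1 0 W hW
  -- a first block
  obtain ⟨W0, _, hW0⟩ := exists_superset s ∅ (by simp)
  obtain ⟨A0, ⟨hA0, hWA0⟩, hA0u⟩ := hSt W0 hW0
  have hA0c : (A0 : Finset ℕ).card = t := A0.2
  obtain ⟨y, hy⟩ := Infinite.exists_notMem_finset (A0 : Finset ℕ)
  obtain ⟨W1, hW1, hW1c⟩ := exists_superset s {y} (by rw [card_singleton]; exact hs)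
  obtain ⟨A1, ⟨hA1, hWA1⟩, _⟩ := hSt W1 hW1c
  have hy1 : y ∈ (A1 : Finset ℕ) := hWA1 (hW1 (by simp))
  have hne : A0 ≠ A1 := by
    intro h
    rw [h] at hy
    exact hy hy1
  have hnt : S.Nontrivial := ⟨A0, hA0, A1, hA1, hne⟩
  have hnu : S ≠ Set.univ := by
    intro h
    obtain ⟨x, hx, hxW⟩ : ∃ x ∈ (A0 : Finset ℕ), x ∉ W0 := by
      by_contra hcon
      push Not at hcon
      have := card_le_card hcon
      omega
    have hye : y ∉ (A0 : Finset ℕ).erase x := fun h1 => hy (mem_of_mem_erase h1)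
    let B : Set.powersetCard ℕ t := ⟨insert y ((A0 : Finset ℕ).erase x), by
      rw [Set.powersetCard.mem_iff, card_insert_of_notMem hye, card_erase_of_mem hx]; omega⟩
    have hB : B ∈ S := by rw [h]; trivial
    have hWB : W0 ⊆ (B : Finset ℕ) := by
      intro z hz
      apply mem_insert_of_mem
      rw [mem_erase]
      exact ⟨fun h1 => hxW (h1 ▸ hz), hWA0 hz⟩
    have h1 := hA0u B ⟨hB, hWB⟩
    apply hy
    rw [← h1]
    exact mem_insert_self _ _
  have hbl : ∀ g : autG c, g • S = S ∨ Disjoint (g • S) S := by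
    intro g
    by_cases hd : Disjoint (g • S) S
    · exact Or.inr hd
    · left
      rw [Set.not_disjoint_iff] at hd
      obtain ⟨B, hB1, hB2⟩ := hd
      rw [Set.mem_smul_set] at hB1
      obtain ⟨A, hA, rfl⟩ := hB1
      exact smul_eq g hA hB2
  refine ⟨autG c, S, ⟨?_⟩, ?_, ⟨hnt, hnu, hbl⟩, hSt, basis_transitive hSt hc2⟩
  · intro a b
    obtain ⟨σ, h1, h2⟩ := hc2 a b
    refine ⟨⟨σ, h1⟩, ?_⟩
    ext i
    exact h2 i
  · intro hprim
    have h1 : MulAction.IsBlock (autG c) S := by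
      rw [MulAction.isBlock_iff_smul_eq_or_disjoint]
      exact hbl
    rcases hprim.isTrivialBlock_of_isBlock h1 with h2 | h2
    · exact (Set.not_subsingleton_iff.2 hnt) h2
    · exact hnu h2

/-- a Steiner system `S(s, t, ·)` with `s ≥ 2` is not a partition -/
theorem not_partition {s t : ℕ} (hs : 2 ≤ s) (hst : s < t) {S : Set (Set.powersetCard ℕ t)}
    (hS : IsSteiner s S) :
    ¬ (∀ x : ℕ, ∃! A : Set.powersetCard ℕ t, A ∈ S ∧ x ∈ (A : Finset ℕ)) := by
  intro hpart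
  obtain ⟨W0, _, hW0⟩ := exists_superset s ∅ (by simp)
  obtain ⟨A0, ⟨hA0, hWA0⟩, _⟩ := hS W0 hW0
  have hA0c : (A0 : Finset ℕ).card = t := A0.2
  obtain ⟨x, hx⟩ : (A0 : Finset ℕ).Nonempty := by
    rw [← card_pos]; omega
  obtain ⟨y, hy⟩ := Infinite.exists_notMem_finset (A0 : Finset ℕ)
  have hxy : x ≠ y := fun h => hy (h ▸ hx)
  obtain ⟨W1, hW1, hW1c⟩ := exists_superset s {x, y} (by rw [card_pair hxy]; exact hs)
  obtain ⟨A1, ⟨hA1, hWA1⟩, _⟩ := hS W1 hW1c
  have hx1 : x ∈ (A1 : Finset ℕ) := hWA1 (hW1 (by simp))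
  have hy1 : y ∈ (A1 : Finset ℕ) := hWA1 (hW1 (by simp))
  obtain ⟨A, _, hA⟩ := hpart x
  have h1 := (hA A0 ⟨hA0, hx⟩).trans (hA A1 ⟨hA1, hx1⟩).symm
  rw [h1] at hy
  exact hy hy1

/-- the trivial restrictions on the parameters -/
theorem restrict {s t : ℕ} {G : Subgroup (Equiv.Perm ℕ)} {S : Set (Set.powersetCard ℕ t)}
    (hB : IsImprimitivityBlock G S) (hS : IsSteiner s S) : 1 ≤ s ∧ s < t := by
  obtain ⟨hnt, hnu, _⟩ := hB
  constructor
  · by_contra hcon
    have h0 : s = 0 := by omega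
    subst h0
    obtain ⟨A, _, hA⟩ := hS ∅ card_empty
    obtain ⟨B, hB, C, hC, hne⟩ := hnt
    exact hne ((hA B ⟨hB, empty_subset _⟩).trans (hA C ⟨hC, empty_subset _⟩).symm)
  · by_contra hcon
    apply hnu
    rw [Set.eq_univ_iff_forall]
    intro B
    have hBc : (B : Finset ℕ).card = t := B.2
    obtain ⟨W, hW1, hW2⟩ := exists_superset s (B : Finset ℕ) (by omega)
    obtain ⟨A, ⟨hA, hWA⟩, _⟩ := hS W hW2
    have hAc : (A : Finset ℕ).card = t := A.2
    have h1 : (B : Finset ℕ) = (A : Finset ℕ) :=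
      eq_of_subset_of_card_le (hW1.trans hWA) (by omega)
    rw [Subtype.ext h1]
    exact hA

/-- **All Steiner types occur.** (1) There are a `(t+1)`-transitive group `G` of permutations of
`ℕ` and a block of imprimitivity of `G` on the `t`-sets which is a (basis-transitive) Steiner
system `S(s, t, ·)` if and only if `1 ≤ s < t`. (2) For all `2 ≤ s < t` there is a
`(t+1)`-transitive group on `ℕ` that is not `t`-set primitive, with such a block which is not a
partition of `ℕ`: the answer to Q1 is negative for every `t ≥ 3` and with every type of blocks. -/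
theorem result :
    (∀ s t : ℕ, (1 ≤ s ∧ s < t) ↔
      ∃ (G : Subgroup (Equiv.Perm ℕ)) (S : Set (Set.powersetCard ℕ t)),
        MulAction.IsMultiplyPretransitive G ℕ (t + 1) ∧
        IsImprimitivityBlock G S ∧ IsSteiner s S ∧ IsBasisTransitive s G S) ∧
    (∀ s t : ℕ, 2 ≤ s → s < t →
      ∃ (G : Subgroup (Equiv.Perm ℕ)) (S : Set (Set.powersetCard ℕ t)),
        MulAction.IsMultiplyPretransitive G ℕ (t + 1) ∧
        ¬ MulAction.IsPreprimitive G (Set.powersetCard ℕ t) ∧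
        IsImprimitivityBlock G S ∧ IsSteiner s S ∧ IsBasisTransitive s G S ∧
        ¬ (∀ x : ℕ, ∃! A : Set.powersetCard ℕ t, A ∈ S ∧ x ∈ (A : Finset ℕ))) := by
  refine ⟨?_, ?_⟩
  · intro s t
    constructor
    · rintro ⟨h1, h2⟩
      obtain ⟨G, S, k1, _, k3, k4, k5⟩ := exists_group h1 h2
      exact ⟨G, S, k1, k3, k4, k5⟩
    · rintro ⟨G, S, _, k2, k3, _⟩
      exact restrict k2 k3
  · intro s t h1 h2
    obtain ⟨G, S, k1, k2, k3, k4, k5⟩ := exists_group (by omega) h2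
    exact ⟨G, S, k1, k2, k3, k4, k5, not_partition h1 h2 k4⟩

end Pool.Agent.Results.MP_c0ccbe_al.AllSteinerTypes
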